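import Mathlib
import Pool.Agent.Work.MP_0a8b43_nt.Dim
import Pool.Agent.Work.MP_0a8b43_nt.Final

set_option autoImplicit false

open Set MeasureTheory
open Pool.Agent.Work.MP_0a8b43_nt

namespace Pool.Agent.Results.MP_0a8b43_nt.DimensionGap

/-- There is a transcendental meromorphic function whose dynamically accessible dimension lies in
`(0, 7/4]`, while every locally finite `s`-conformal measure with `0 ≤ s ≤ 19/10` is a point mass
at a pole `p` which the function omits. So the conformal dimension is at least `19/10` once this
degenerate measure is left out (for instance if only measures with full support, or only measures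
without mass on the poles, are admitted), and it is `0` if it is admitted: in all readings it
differs from the dynamically accessible dimension. -/
theorem result : ∃ F : ℂ → ℂ, TransMero F ∧ 0 < dynDim F ∧ dynDim F ≤ 7 / 4 ∧
    (∃ p : ℂ, IsPole F p ∧ (∀ z, ¬ IsPole F z → F z ≠ p) ∧
      ∀ (s : ℝ) (μ : Measure ℂ), 0 ≤ s → s ≤ 19 / 10 → IsLFConformal F s μ → μ {p}ᶜ = 0) ∧
    19 / 10 ≤ confDimFull F ∧ 19 / 10 ≤ confDimNP F ∧ confDim F = 0 :=
  ⟨FF, FF_trans, dim_pos, dim_le, ⟨0, pole_zero, fun _ hz => omitted hz,
    fun _ _ hs hs' hμ => conf_class hμ hs hs'⟩, confDimFull_ge, confDimNP_ge, confDim_zero⟩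

end Pool.Agent.Results.MP_0a8b43_nt.DimensionGap
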